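import Pool.Agent.TH614.HS.Base

/-! Job HS-B3: two simple roots of the same sign at a degenerate point. -/

set_option autoImplicit false

namespace Pool.Agent.TH91.J3876

open Pool.Agent.TH614.HS

section lin

variable {L : Type} [Field L]

/-- the two linear equations -/
def InS (th s t g rho P0 P1 P2 Y : L) : Prop :=
  Y + th * (P1 / (s * t)) = g * l1 s t P0 P2 + rho * l2 th s t P0 P1 P2 Y ∧
  4 * (P1 / (s * t)) = -2 * g * rho * l1 s t P0 P2
    - (g ^ 2 / (1 + g ^ 2) + rho ^ 2) * l2 th s t P0 P1 P2 Y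

lemma InS.zero {th s t g rho P0 P1 P2 Y : L} (h2 : (2 : L) ≠ 0) (hs : s ≠ 0) (ht : t ≠ 0)
    (h : InS th s t g rho P0 P1 P2 Y) (e1 : l1 s t P0 P2 = 0) (e2 : l2 th s t P0 P1 P2 Y = 0) :
    P0 = 0 ∧ P1 = 0 ∧ P2 = 0 ∧ Y = 0 := by
  obtain ⟨k1, k2⟩ := h
  rw [e1, e2] at k1 k2
  have h4 : (4 : L) ≠ 0 := by
    have : (4 : L) = 2 * 2 := by norm_num
    rw [this]; exact mul_ne_zero h2 h2
  have k3 : P1 / (s * t) = 0 := by
    have : 4 * (P1 / (s * t)) = 0 := by rw [k2]; ring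
    exact (mul_eq_zero.mp this).resolve_left h4
  have kP1 : P1 = 0 := by
    rcases div_eq_zero_iff.mp k3 with h | h
    · exact h
    · exact absurd h (mul_ne_zero hs ht)
  have kY : Y = 0 := by
    rw [k3] at k1
    linear_combination k1
  unfold l1 at e1
  unfold l2 at e2
  rw [k3, kY] at e2
  have kP0 : s * P0 = 0 := by
    have : 2 * (s * P0) = 0 := by linear_combination e1 + e2
    exact (mul_eq_zero.mp this).resolve_left h2
  have kP2 : t * P2 = 0 := by linear_combination kP0 - e1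
  exact ⟨(mul_eq_zero.mp kP0).resolve_left hs, kP1, (mul_eq_zero.mp kP2).resolve_left ht, kY⟩

lemma InS.comb {th s t g rho P0 P1 P2 Y Q0 Q1 Q2 Z R0 R1 R2 W : L} (a b c : L)
    (h : InS th s t g rho P0 P1 P2 Y) (h' : InS th s t g rho Q0 Q1 Q2 Z)
    (h'' : InS th s t g rho R0 R1 R2 W) :
    InS th s t g rho (a * P0 + b * Q0 + c * R0) (a * P1 + b * Q1 + c * R1)
      (a * P2 + b * Q2 + c * R2) (a * Y + b * Z + c * W) := by
  unfold InS l1 l2 at *
  obtain ⟨k1, k2⟩ := h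
  obtain ⟨k1', k2'⟩ := h'
  obtain ⟨k1'', k2''⟩ := h''
  constructor
  · linear_combination a * k1 + b * k1' + c * k1''
  · linear_combination a * k2 + b * k2' + c * k2''

lemma onL_of_inS {th x0 x1 x2 y0 y1 y2 s t g rho : L} (h2 : (2 : L) ≠ 0) (hs : s ≠ 0)
    (ht : t ≠ 0) (hPL : PL x0 x1 x2 y0 y1 y2)
    (hl : ∀ P0 P1 P2 Y, OnL x0 x1 x2 y0 y1 y2 P0 P1 P2 Y → InS th s t g rho P0 P1 P2 Y)
    {P0 P1 P2 Y : L} (hv : InS th s t g rho P0 P1 P2 Y) :
    OnL x0 x1 x2 y0 y1 y2 P0 P1 P2 Y := by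
  have hx0 : x0 ≠ 0 := hPL.1
  have hp : x0 * y0 + x1 * y1 + x2 * y2 = 0 := hPL.2.2.2.2.2.2
  have ha0 := Pool.Agent.TH614.HS.OnL.param hPL 1 0
  have hb0 := Pool.Agent.TH614.HS.OnL.param hPL 0 1
  have ha := hl _ _ _ _ ha0
  have hb := hl _ _ _ _ hb0
  set a1 := (x1 * 1 + 0 * y2) / x0 with ha1
  set a2 := (x2 * 1 - 0 * y1) / x0 with ha2
  set b1 := (x1 * 0 + 1 * y2) / x0 with hb1
  set b2 := (x2 * 0 - 1 * y1) / x0 with hb2
  -- values of `l1`, `l2`
  set al1 := l1 s t 1 a2 with hal1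
  set al2 := l2 th s t 1 a1 a2 0 with hal2
  set be1 := l1 s t 0 b2 with hbe1
  set be2 := l2 th s t 0 b1 b2 1 with hbe2
  set la1 := l1 s t P0 P2 with hla1
  set la2 := l2 th s t P0 P1 P2 Y with hla2
  have hγ : al1 * be2 - al2 * be1 ≠ 0 := by
    intro h0
    have c1 := InS.comb be2 (-al2) 0 ha hb hb
    have z1 := InS.zero h2 hs ht c1
      (by
        have : l1 s t (be2 * 1 + -al2 * 0 + 0 * 0) (be2 * a2 + -al2 * b2 + 0 * b2) =
            be2 * al1 - al2 * be1 := by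
          rw [hal1, hbe1]; unfold l1; ring
        rw [this]; linear_combination h0)
      (by
        have : l2 th s t (be2 * 1 + -al2 * 0 + 0 * 0) (be2 * a1 + -al2 * b1 + 0 * b1)
            (be2 * a2 + -al2 * b2 + 0 * b2) (be2 * 0 + -al2 * 1 + 0 * 1) =
            be2 * l2 th s t 1 a1 a2 0 - al2 * l2 th s t 0 b1 b2 1 := by
          unfold l2; ring
        rw [this, ← hal2, ← hbe2]; ring)
    have c2 := InS.comb be1 (-al1) 0 ha hb hb
    have z2 := InS.zero h2 hs ht c2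
      (by
        have : l1 s t (be1 * 1 + -al1 * 0 + 0 * 0) (be1 * a2 + -al1 * b2 + 0 * b2) =
            be1 * l1 s t 1 a2 - al1 * l1 s t 0 b2 := by
          unfold l1; ring
        rw [this, ← hal1, ← hbe1]; ring)
      (by
        have : l2 th s t (be1 * 1 + -al1 * 0 + 0 * 0) (be1 * a1 + -al1 * b1 + 0 * b1)
            (be1 * a2 + -al1 * b2 + 0 * b2) (be1 * 0 + -al1 * 1 + 0 * 1) =
            be1 * l2 th s t 1 a1 a2 0 - al1 * l2 th s t 0 b1 b2 1 := by
          unfold l2; ring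
        rw [this, ← hal2, ← hbe2]; linear_combination -h0)
    have e1 : al2 = 0 := by linear_combination -z1.2.2.2
    have e2 : al1 = 0 := by linear_combination -z2.2.2.2
    have z3 := InS.zero h2 hs ht ha e2 e1
    exact one_ne_zero z3.1
  -- the combination
  have c3 := InS.comb (al1 * be2 - al2 * be1) (-(la1 * be2 - la2 * be1)) (-(al1 * la2 - al2 * la1))
    hv ha hb
  have z3 := InS.zero h2 hs ht c3
    (by
      have : l1 s t ((al1 * be2 - al2 * be1) * P0 + -(la1 * be2 - la2 * be1) * 1 +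
            -(al1 * la2 - al2 * la1) * 0)
          ((al1 * be2 - al2 * be1) * P2 + -(la1 * be2 - la2 * be1) * a2 +
            -(al1 * la2 - al2 * la1) * b2) =
          (al1 * be2 - al2 * be1) * l1 s t P0 P2 + -(la1 * be2 - la2 * be1) * l1 s t 1 a2 +
            -(al1 * la2 - al2 * la1) * l1 s t 0 b2 := by
        unfold l1; ring
      rw [this, ← hla1, ← hal1, ← hbe1]; ring)
    (by
      have : l2 th s t ((al1 * be2 - al2 * be1) * P0 + -(la1 * be2 - la2 * be1) * 1 +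
            -(al1 * la2 - al2 * la1) * 0)
          ((al1 * be2 - al2 * be1) * P1 + -(la1 * be2 - la2 * be1) * a1 +
            -(al1 * la2 - al2 * la1) * b1)
          ((al1 * be2 - al2 * be1) * P2 + -(la1 * be2 - la2 * be1) * a2 +
            -(al1 * la2 - al2 * la1) * b2)
          ((al1 * be2 - al2 * be1) * Y + -(la1 * be2 - la2 * be1) * 0 +
            -(al1 * la2 - al2 * la1) * 1) =
          (al1 * be2 - al2 * be1) * l2 th s t P0 P1 P2 Y +
            -(la1 * be2 - la2 * be1) * l2 th s t 1 a1 a2 0 +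
            -(al1 * la2 - al2 * la1) * l2 th s t 0 b1 b2 1 := by
        unfold l2; ring
      rw [this, ← hla2, ← hal2, ← hbe2]; ring)
  obtain ⟨w0, w1, w2, w3⟩ := z3
  have k0 : la1 * be2 - la2 * be1 = (al1 * be2 - al2 * be1) * P0 := by linear_combination -w0
  have k3 : al1 * la2 - al2 * la1 = (al1 * be2 - al2 * be1) * Y := by linear_combination -w3
  rw [k0, k3] at w1 w2
  have v1 : P1 = P0 * a1 + Y * b1 := by
    apply mul_left_cancel₀ hγ
    linear_combination w1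
  have v2 : P2 = P0 * a2 + Y * b2 := by
    apply mul_left_cancel₀ hγ
    linear_combination w2
  have u1 : x0 * P1 = x1 * P0 + Y * y2 := by
    rw [v1, ha1, hb1]; field_simp; ring
  have u2 : x0 * P2 = x2 * P0 - Y * y1 := by
    rw [v2, ha2, hb2]; field_simp; ring
  refine ⟨?_, ?_, ?_⟩
  · apply mul_left_cancel₀ hx0
    linear_combination x1 * u2 - x2 * u1 - Y * hp
  · linear_combination -u2
  · linear_combination u1

end lin

section core

variable {L : Type} [Field L]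

lemma core_pos {e be g B g' m m' n n' a b c f : L} (h2 : (2 : L) ≠ 0)
    (hbe : be ≠ 0) (hg : g ≠ 0) (hB : B ≠ 0) (hg' : g' ≠ 0) (ha : a ≠ 0) (hf : c ≠ 0)
    (u1 : a - e * b = be * m) (u2 : a + e * b = m' / be)
    (h1 : c - e * f = -(be / g) * n) (h3 : c + e * f = -(g / be) * n')
    (v1 : a - e * b = B * m) (v2 : a + e * b = m' / B)
    (k1 : c - e * f = -(B / g') * n) (k3 : c + e * f = -(g' / B) * n') : B = be ∧ g' = g := by
  have hBe : B = be := by
    by_contra hne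
    have hm : m = 0 := by
      have : (B - be) * m = 0 := by linear_combination u1 - v1
      exact (mul_eq_zero.mp this).resolve_left (sub_ne_zero.mpr hne)
    have hm' : m' = 0 := by
      have e1 : m' = be * (a + e * b) := by rw [u2]; field_simp
      have e2 : m' = B * (a + e * b) := by rw [v2]; field_simp
      have e3 : (B - be) * (a + e * b) = 0 := by linear_combination e1 - e2
      have e4 := (mul_eq_zero.mp e3).resolve_left (sub_ne_zero.mpr hne)
      rw [e1, e4, mul_zero]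
    rw [hm] at u1
    rw [hm'] at u2
    have : 2 * a = 0 := by
      rw [zero_div] at u2
      linear_combination u1 + u2
    exact ha ((mul_eq_zero.mp this).resolve_left h2)
  refine ⟨hBe, ?_⟩
  subst hBe
  by_contra hne
  have hn : n = 0 := by
    have e1 : B * n = -g * (c - e * f) := by rw [h1]; field_simp
    have e2 : B * n = -g' * (c - e * f) := by rw [k1]; field_simp
    have e3 : (g' - g) * (c - e * f) = 0 := by linear_combination e2 - e1
    have e4 := (mul_eq_zero.mp e3).resolve_left (sub_ne_zero.mpr hne)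
    rw [e4, mul_zero] at e1
    exact (mul_eq_zero.mp e1).resolve_left hB
  have hn' : n' = 0 := by
    have : (g' - g) * n' = 0 := by
      have e1 : g * n' = -B * (c + e * f) := by rw [h3]; field_simp
      have e2 : g' * n' = -B * (c + e * f) := by rw [k3]; field_simp
      linear_combination e2 - e1
    exact (mul_eq_zero.mp this).resolve_left (sub_ne_zero.mpr hne)
  rw [hn] at h1
  rw [hn'] at h3
  have : 2 * c = 0 := by linear_combination h1 + h3
  exact hf ((mul_eq_zero.mp this).resolve_left h2)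

lemma core_neg {e be g B g' m n a b c f : L} (h2 : (2 : L) ≠ 0) (he : e ≠ 0)
    (hbe : be ≠ 0) (hg : g ≠ 0) (hB : B ≠ 0) (hg' : g' ≠ 0) (hb : b ≠ 0)
    (hc : c ≠ 0) (hf : f ≠ 0) (hE : a * f = c * b)
    (hbg : be ^ 2 = 1 + g ^ 2) (hBg : B ^ 2 = 1 + g' ^ 2)
    (u1 : a - e * b = be * m) (h1 : c - e * f = -(be / g) * n)
    (v1 : a + e * b = B * m) (k1 : c + e * f = (B / g') * n) : False := by
  have A : (a - e * b) * B = (a + e * b) * be := by rw [u1, v1]; ring
  have A' : (c - e * f) * B = (c + e * f) * be := by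
    apply mul_left_cancel₀ hb
    linear_combination f * A + (be - B) * hE
  have e1 : g * (c - e * f) = -be * n := by rw [h1]; field_simp
  have e2 : g' * (c + e * f) = B * n := by rw [k1]; field_simp
  have e3 : (g + g') * (c + e * f) * be = 0 := by
    linear_combination B * e1 + be * e2 - g * A'
  have hcf : c + e * f ≠ 0 := by
    intro h0
    rw [h0, zero_mul] at A'
    have h5 := (mul_eq_zero.mp A').resolve_right hB
    have : 2 * c = 0 := by linear_combination h0 + h5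
    exact hc ((mul_eq_zero.mp this).resolve_left h2)
  have e4 : g + g' = 0 := by
    have := (mul_eq_zero.mp e3).resolve_right hbe
    exact (mul_eq_zero.mp this).resolve_right hcf
  have e5 : g' = -g := by linear_combination e4
  rw [e5] at hBg
  have e6 : (B - be) * (B + be) = 0 := by linear_combination hBg - hbg
  rcases mul_eq_zero.mp e6 with h | h
  · have h7 : B = be := sub_eq_zero.mp h
    rw [h7] at A'
    have h8 := mul_right_cancel₀ hbe A'
    have : (2 * e) * f = 0 := by linear_combination -h8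
    rcases mul_eq_zero.mp this with h | h
    · exact (mul_ne_zero h2 he) h
    · exact hf h
  · have h7 : B = -be := by linear_combination h
    rw [h7] at A'
    have h8 : (2 * c) * be = 0 := by linear_combination -A'
    have h9 := (mul_eq_zero.mp h8).resolve_right hbe
    exact hc ((mul_eq_zero.mp h9).resolve_left h2)

end core

section data

variable {L : Type} [Field L] [IsAlgClosed L] {D : HD L}

/-- the four roots at a rational point -/
lemma dat (hH : S_HAT) {x s mu eta e be g rho P Y : L} (hx : D.isL x)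
    (hSg : D.Sg x s mu eta e be g rho) (hm : D.mem x P Y) :
    ∃ a b c f : L,
      a ^ 2 = Dq D.th s P (P ^ (D.q ^ 2)) (P ^ (D.q ^ 4)) Y ∧
      c ^ 2 = Dq (-D.th) s⁻¹ (P ^ (D.q ^ 3)) (P ^ (D.q ^ 5)) (P ^ D.q) (Y ^ D.q) ∧
      a ^ D.q = f ∧ c ^ D.q = b ∧
      a - e * b = be * l1 s (D.nt s) P (P ^ (D.q ^ 4)) ∧
      a + e * b = l2 D.th s (D.nt s) P (P ^ (D.q ^ 2)) (P ^ (D.q ^ 4)) Y / be ∧
      c - e * f = -(be / g) * m1 s (D.nt s) (P ^ (D.q ^ 3)) (P ^ D.q) ∧
      c + e * f = -(g / be) *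
        m2 D.th s (D.nt s) (P ^ (D.q ^ 3)) (P ^ (D.q ^ 5)) (P ^ D.q) (Y ^ D.q) ∧
      InS D.th s (D.nt s) g rho P (P ^ (D.q ^ 2)) (P ^ (D.q ^ 4)) Y ∧
      Bq D.th s (D.nt s) P (P ^ (D.q ^ 2)) (P ^ (D.q ^ 4)) Y (P ^ (D.q ^ 3)) (P ^ (D.q ^ 5))
        (P ^ D.q) (Y ^ D.q) = 2 * e * (a * f - c * b) := by
  obtain ⟨⟨hs, hRD⟩, -, hCh⟩ := hSg
  obtain ⟨⟨he, hbe, hg, hbg, -, hU⟩, -, hHt, hBb⟩ := hCh
  have hP := hm.onL hx
  have hR := hm.onL' hx
  have hxne := hx.ne
  have hx6 := hx.p6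
  have hth2 := D.th2
  have hP6 : P ^ (D.q ^ 6) = P := hm.1.1
  have hY2 : Y ^ (D.q ^ 2) = Y := hm.1.2
  obtain ⟨u1, u2, u3, u4⟩ := hU _ _ _ _ hP
  obtain ⟨v1, v2⟩ := hHt _ _ _ _ hR
  have hB := hBb _ _ _ _ _ _ _ _ hP hR
  have hD := hRD _ _ _ _ hP
  have hRD' := hH L D.th _ _ _ _ _ _ s mu eta D.two_ne hth2 hx.PL hs hRD
  have hD' := hRD' _ _ _ _ hR
  refine ⟨mu * s * P + eta * Y,
    D.mM x s mu eta * D.nt s * P ^ (D.q ^ 4) + D.mE x s mu eta * Y,
    hat D.th s x (x ^ (D.q ^ 3)) mu eta (P ^ (D.q ^ 3)) (Y ^ D.q),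
    hat D.th (D.nt s) (x ^ (D.q ^ 4)) (x ^ D.q) (D.mM x s mu eta) (D.mE x s mu eta) (P ^ D.q)
      (Y ^ D.q), hD.symm, ?_, ?_, ?_, u1, u2, v1, v2, ⟨u3, u4⟩, ?_⟩
  · rw [hD']
    unfold hat
    ring
  · -- `a ^ q = f`
    have hxq : x ^ D.q ≠ 0 := pow_ne_zero _ hxne
    have hx4 : x ^ (D.q ^ 4) ≠ 0 := pow_ne_zero _ hxne
    have hsq : s ^ D.q ≠ 0 := pow_ne_zero _ hs
    rw [D.add, mul_pow, mul_pow, mul_pow]
    unfold hat HD.mM HD.mE HD.nt
    have h2q : s ^ (2 * D.q) = (s ^ D.q) ^ 2 := by rw [mul_comm, pow_mul]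
    rw [h2q]
    field_simp
    have e1 : (2 * (2 * mu ^ D.q - D.th * eta ^ D.q) + D.th * (2 * eta ^ D.q - D.th * mu ^ D.q)) =
        mu ^ D.q := by linear_combination -(mu ^ D.q) * hth2
    have e2 : (D.th * (2 * mu ^ D.q - D.th * eta ^ D.q) + 2 * (2 * eta ^ D.q - D.th * mu ^ D.q)) =
        eta ^ D.q := by linear_combination -(eta ^ D.q) * hth2
    linear_combination (-(s ^ D.q) * P ^ D.q) * e1 - Y ^ D.q * e2
  · -- `c ^ q = b`
    have hx3 : x ^ (D.q ^ 3) ≠ 0 := pow_ne_zero _ hxne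
    have hx4 : x ^ (D.q ^ 4) ≠ 0 := pow_ne_zero _ hxne
    have hsq : s ^ D.q ≠ 0 := pow_ne_zero _ hs
    unfold hat HD.mM HD.mE HD.nt
    have h2q : s ^ (2 * D.q) = (s ^ D.q) ^ 2 := by rw [mul_comm, pow_mul]
    have h2s : (s ^ 2) ^ D.q = (s ^ D.q) ^ 2 := by rw [← pow_mul, ← pow_mul, mul_comm]
    have hYq : (Y ^ D.q) ^ D.q = Y := by rw [D.qq, hY2]
    rw [D.add, mul_pow, mul_pow, mul_pow, mul_pow, div_pow, div_pow, mul_pow, D.add, D.add, mul_pow,
      mul_pow, mul_pow, mul_pow, D.thq, D.ofNat_q, D.pq, D.pq, h2s, hYq, h2q]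
    field_simp
    ring
  · rw [hB]
    have e1 : e ^ 2 = 1 := by rcases he with h | h <;> rw [h] <;> ring
    generalize mu * s * P + eta * Y = a at *
    generalize D.mM x s mu eta * D.nt s * P ^ (D.q ^ 4) + D.mE x s mu eta * Y = b at *
    generalize hat D.th s x (x ^ (D.q ^ 3)) mu eta (P ^ (D.q ^ 3)) (Y ^ D.q) = c at *
    generalize hat D.th (D.nt s) (x ^ (D.q ^ 4)) (x ^ D.q) (D.mM x s mu eta) (D.mE x s mu eta)
      (P ^ D.q) (Y ^ D.q) = f at *
    have w1 : (a - e * b) * (c + e * f) = -g * l1 s (D.nt s) P (P ^ (D.q ^ 4)) *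
        m2 D.th s (D.nt s) (P ^ (D.q ^ 3)) (P ^ (D.q ^ 5)) (P ^ D.q) (Y ^ D.q) := by
      rw [u1, v2]
      field_simp
    have w2 : (a + e * b) * (c - e * f) =
        -(l2 D.th s (D.nt s) P (P ^ (D.q ^ 2)) (P ^ (D.q ^ 4)) Y *
          m1 s (D.nt s) (P ^ (D.q ^ 3)) (P ^ D.q) / g) := by
      rw [u2, v1]
      field_simp
    linear_combination w2 - w1

end data

theorem B3 : S_HAT → S_G0 → S_B3 := by
  intro hH hG0 L _ _ D x x' s mu eta e be g rho mu' eta' be' g' rho' P Y hx hx' hSg hSg' hm hm'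
    hG hD
  obtain ⟨a, b, c, f, ha, hc, haq, hcq, u1, u2, h1, h3, hS, hB⟩ := dat hH hx hSg hm
  obtain ⟨a', b', c', f', ha', hc', haq', hcq', u1', u2', h1', h3', hS', -⟩ := dat hH hx' hSg' hm'
  obtain ⟨⟨hs, -⟩, -, ⟨he, hbe, hg, hbg, -, hU⟩, -, -, -⟩ := hSg
  obtain ⟨-, -, ⟨-, hbe', hg', hbg', -, hU'⟩, -, -, -⟩ := hSg'
  have h2 := D.two_ne
  have he2 : e ^ 2 = 1 := by rcases he with h | h <;> rw [h] <;> ring
  have he0 : e ≠ 0 := by
    intro h
    rw [h] at he2
    norm_num at he2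
  have hq := D.q_ne
  have hodd := D.qodd
  -- the exponent
  have hm2 : 2 * ((D.q + 1) / 2) = D.q + 1 := by
    obtain ⟨k, hk⟩ := hodd
    omega
  have hpow : ∀ z : L, (z ^ 2) ^ ((D.q + 1) / 2) = z ^ D.q * z := by
    intro z
    rw [← pow_mul, hm2, pow_succ]
  have hE : a * f = c * b := by
    have h5 := hG0 L D P Y s (-e) hm.1 hs
    rw [hG, ← ha, ← hc, hpow, hpow, haq, hcq, hB] at h5
    have h6 : s ^ (D.q + 1) ≠ 0 := pow_ne_zero _ hs
    have h7 := (mul_eq_zero.mp h5.symm).resolve_left h6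
    have h4 : (4 : L) ≠ 0 := D.four_ne
    have h8 : (4 * e) * (a * f - c * b) = 0 := by linear_combination h7
    have h9 := (mul_eq_zero.mp h8).resolve_left (mul_ne_zero h4 he0)
    exact sub_eq_zero.mp h9
  have ha0 : a ≠ 0 := by
    intro h
    rw [h] at ha
    apply hD
    rw [← ha]
    ring
  have hf0 : f ≠ 0 := by rw [← haq]; exact pow_ne_zero _ ha0
  have hcb : c * b ≠ 0 := by rw [← hE]; exact mul_ne_zero ha0 hf0
  have hc0 : c ≠ 0 := left_ne_zero_of_mul hcb
  have hb0 : b ≠ 0 := right_ne_zero_of_mul hcb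
  have key : g' = g := by
    have k1 : a' = a ∨ a' = -a := by
      apply sq_eq_sq_iff_eq_or_eq_neg.mp
      rw [ha, ha']
    have k2 : c' = c ∨ c' = -c := by
      apply sq_eq_sq_iff_eq_or_eq_neg.mp
      rw [hc, hc']
    rcases k1 with k1 | k1 <;> rcases k2 with k2 | k2
    · have kf : f' = f := by rw [← haq', k1, haq]
      have kb : b' = b := by rw [← hcq', k2, hcq]
      rw [k1, kb] at u1' u2'
      rw [k2, kf] at h1' h3'
      exact (core_pos h2 hbe hg hbe' hg' ha0 hc0 u1 u2 h1 h3 u1' u2' h1' h3').2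
    · have kf : f' = f := by rw [← haq', k1, haq]
      have kb : b' = -b := by rw [← hcq', k2, D.neg_q, hcq]
      rw [k1, kb] at u1' u2'
      rw [k2, kf] at h1' h3'
      exfalso
      exact core_neg (B := be') (g' := g') h2 he0 hbe hg hbe' hg' hb0 hc0 hf0 hE hbg hbg' u1 h1
        (by linear_combination u1') (by linear_combination -h1')
    · have kf : f' = -f := by rw [← haq', k1, D.neg_q, haq]
      have kb : b' = b := by rw [← hcq', k2, hcq]
      rw [k1, kb] at u1' u2'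
      rw [k2, kf] at h1' h3'
      exfalso
      exact core_neg (B := -be') (g' := g') h2 he0 hbe hg (neg_ne_zero.mpr hbe') hg' hb0 hc0 hf0 hE
        hbg (by rw [neg_sq]; exact hbg') u1 h1
        (by linear_combination -u1') (by linear_combination h1')
    · have kf : f' = -f := by rw [← haq', k1, D.neg_q, haq]
      have kb : b' = -b := by rw [← hcq', k2, D.neg_q, hcq]
      rw [k1, kb] at u1' u2'
      rw [k2, kf] at h1' h3'
      refine (core_pos (B := -be') (g' := g') h2 hbe hg (neg_ne_zero.mpr hbe') hg' ha0 hc0 u1 u2 h1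
        h3 (by linear_combination -u1') ?_ (by linear_combination -h1') ?_).2
      · rw [div_neg]; linear_combination -u2'
      · rw [div_neg]; linear_combination -h3'
  subst key
  have hrho : rho' = rho := by
    obtain ⟨a1, a2⟩ := hS
    obtain ⟨b1, b2⟩ := hS'
    by_contra hne
    have hne' : rho' - rho ≠ 0 := sub_ne_zero.mpr hne
    have c2 : l2 D.th s (D.nt s) P (P ^ (D.q ^ 2)) (P ^ (D.q ^ 4)) Y = 0 := by
      have : (rho' - rho) * l2 D.th s (D.nt s) P (P ^ (D.q ^ 2)) (P ^ (D.q ^ 4)) Y = 0 := by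
        linear_combination a1 - b1
      exact (mul_eq_zero.mp this).resolve_left hne'
    have c1 : l1 s (D.nt s) P (P ^ (D.q ^ 4)) = 0 := by
      rw [c2] at a2 b2
      have : (2 * g') * ((rho' - rho) * l1 s (D.nt s) P (P ^ (D.q ^ 4))) = 0 := by
        linear_combination b2 - a2
      have h5 := (mul_eq_zero.mp this).resolve_left (mul_ne_zero h2 hg')
      exact (mul_eq_zero.mp h5).resolve_left hne'
    rw [c1] at u1
    rw [c2] at u2
    have : 2 * a = 0 := by
      rw [zero_div] at u2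
      linear_combination u1 + u2
    exact ha0 ((mul_eq_zero.mp this).resolve_left h2)
  subst hrho
  have hnt : D.nt s ≠ 0 := inv_ne_zero (pow_ne_zero _ hs)
  have hin : ∀ P0 P1 P2 Y, OnL x (x ^ (D.q ^ 2)) (x ^ (D.q ^ 4)) (x ^ (D.q ^ 3)) (x ^ (D.q ^ 5))
      (x ^ D.q) P0 P1 P2 Y → InS D.th s (D.nt s) g' rho' P0 P1 P2 Y := by
    intro P0 P1 P2 Y h
    obtain ⟨-, -, k3, k4⟩ := hU _ _ _ _ h
    exact ⟨k3, k4⟩
  have hin' : ∀ P0 P1 P2 Y, OnL x' (x' ^ (D.q ^ 2)) (x' ^ (D.q ^ 4)) (x' ^ (D.q ^ 3))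
      (x' ^ (D.q ^ 5)) (x' ^ D.q) P0 P1 P2 Y → InS D.th s (D.nt s) g' rho' P0 P1 P2 Y := by
    intro P0 P1 P2 Y h
    obtain ⟨-, -, k3, k4⟩ := hU' _ _ _ _ h
    exact ⟨k3, k4⟩
  have hxne := hx.ne
  have hx'ne := hx'.ne
  have q2 := onL_of_inS h2 hs hnt hx.PL hin (hin' _ _ _ _ (Pool.Agent.TH614.HS.OnL.param hx'.PL 0 1))
  obtain ⟨-, -, r3⟩ := q2
  refine ⟨x' / x, ?_, ?_⟩
  · rw [div_pow]
    have hxq : x ^ D.q ≠ 0 := pow_ne_zero _ hxne
    field_simp at r3 ⊢
    linear_combination r3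
  · field_simp

end Pool.Agent.TH91.J3876
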